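import Pool.Agent.Lib.MP_1822da_lc.NB.T12

/-!
# MP_1822da: Borel edge colourings of Schreier graphs, blocks and partners

Let `(Γ, S)` be a marked group without elements of odd order in `S` acting freely with Borel
asymptotic separation index at most `1` such that the Borel edge chromatic number of the Schreier
graph is not `|S|`. Whatever pairwise disjoint nilpotent or free blocks are removed from `S`, some
`g ∈ S` of infinite order remains which has no commuting partner and no partner of finite order
among the remaining elements of `S`. In particular, if `Γ` is nilpotent or virtually cyclic, then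
`Γ` is a finite extension of `ℤ`.

Idea: the subgraphs given by the blocks and by the remaining elements are coloured separately. For
a nilpotent block: modulo inverses it is a disjoint union of stars, with a centre `h` and leaves
`a`, and of exceptional triples. For a pair `(a, h)` the graph of the `a`-edges and `h`-edges is
`4`-regular and bipartite. By finitely many steps, each a sum of translates of finitely supported
weights without vertex sums, its uniform fractional perfect matching is changed into the perfect
matching of every second edge of the `h`-lines, for both parities, and the one of the cubic graph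
which remains is changed into the perfect matching of every second edge of the `a`-lines. Cutting
these sums off in the zones around the Borel set given by the separation index, one gets fractional
perfect matchings which are integral outside a Borel set with finite components, and Hall's theorem
makes them integral everywhere. A free block gives a Borel forest whose components are
coloured from paths chosen with the separation index. For commuting partners `g, h` the lines of
`g` change from one Borel frame to another along pairs `L, hL`, and the two defects are repaired in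
the 4-cycle `y, gy, hgy, hy`.
-/

namespace Pool.Agent.Results.MP_1822da_lc.Blocks

open Set MeasureTheory
open Pool.Agent.Lib.MP_1822da_lc Pool.Agent.MP1822T Pool.Agent.MP1822N

universe u v

/-- **Main theorem.** Let `(Γ, S)` be a marked group with no element of `S` of odd order and let
`Γ` act freely and by Borel maps on the nonempty standard Borel space `X` with Borel asymptotic
separation index at most `1`. Suppose that the Borel edge chromatic number of the Schreier graph is
not `|S|` (that is, it is `|S| + 1`), and let `𝓑` be a finite set of pairwise disjoint nilpotent or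
free blocks contained in `S`. Then some `g ∈ S` of infinite order, in no block of `𝓑`,
* commutes with no `h ∈ S` of infinite order, in no block of `𝓑`, such that `⟨g⟩ ∩ ⟨h⟩ = 1`, and
* generates with no `s ∈ S` of finite order, in no block of `𝓑`, a virtually cyclic group.

In particular, if `Γ` is nilpotent (take as the one block all elements of `S` of infinite order) or
virtually cyclic (take no block), then `Γ` is a finite extension of `ℤ`. -/
theorem result {Γ : Type u} [Group Γ] (S : Finset Γ) (hsymm : ∀ g ∈ S, g⁻¹ ∈ S)
    (h1 : (1 : Γ) ∉ S) (hgen : Subgroup.closure (S : Set Γ) = ⊤)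
    (hodd : ∀ g ∈ S, ¬ Odd (orderOf g))
    {X : Type v} [Nonempty X] [MeasurableSpace X] [StandardBorelSpace X] [MulAction Γ X]
    (hmeas : ∀ γ : Γ, Measurable fun x : X => γ • x)
    (hfree : ∀ (γ : Γ) (x : X), γ • x = x → γ = 1)
    (hasi : BorelAsiLe (schreierGraph S X) 1)
    (hchi : borelChromaticIndex (schreierGraph S X) ≠ (S.card : ℕ∞))
    (𝓑 : Finset (Finset Γ)) (hB : ∀ B ∈ 𝓑, B ⊆ S ∧ (NilBlk B ∨ FreeBlock B))
    (hd : (𝓑 : Set (Finset Γ)).PairwiseDisjoint id) :
    (∃ g ∈ S, ¬ IsOfFinOrder g ∧ (∀ B ∈ 𝓑, g ∉ B) ∧
      (∀ h ∈ S, (∀ B ∈ 𝓑, h ∉ B) → ¬ IsOfFinOrder h → g * h = h * g →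
        Subgroup.zpowers g ⊓ Subgroup.zpowers h ≠ ⊥) ∧
      (∀ s ∈ S, (∀ B ∈ 𝓑, s ∉ B) → IsOfFinOrder s →
        ¬ IsVirtuallyCyclic (Subgroup.closure {g, s}))) ∧
    (Group.IsNilpotent Γ ∨ IsVirtuallyCyclic Γ → IsFiniteExtensionOfInt Γ) := by
  constructor
  · by_contra hcon
    push Not at hcon
    refine hchi (blocks_index2 hmeas hfree hsymm h1 hgen hodd hasi 𝓑 hB hd fun g hg hgo => ?_)
    by_cases hex : ∃ B ∈ 𝓑, g ∈ B
    · exact Or.inl hex
    push Not at hex
    by_cases hex' : ∃ h ∈ S, (∀ B ∈ 𝓑, h ∉ B) ∧ Pool.Agent.MP1822C.Prt g h
    · exact Or.inr (Or.inl hex')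
    obtain ⟨s, hs, hsB, hso, hv⟩ := hcon g hg hgo hex
      (fun h hh hhB hho hc hb => hex' ⟨h, hh, hhB, hgo, hho, hc, hb⟩)
    exact Or.inr (Or.inr ⟨s, hs, hsB, hso, hv⟩)
  · rintro (hn | hv)
    · exact nilpotent_index2 hmeas hfree hsymm h1 hgen hodd hasi hchi
    · exact two_ended hv S hsymm h1 hgen hodd hmeas hfree hasi hchi

end Pool.Agent.Results.MP_1822da_lc.Blocks
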