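import Pool.Agent.Lib.MP_1822da_lc.KC.Fam

/-!
# MP_1822da: Borel edge colourings of Schreier graphs and Kempe equivalence

Let `(Γ, S)` be a marked group without elements of odd order in `S` acting freely with Borel
asymptotic separation index at most `1` such that the Borel edge chromatic number of the Schreier
graph is not `|S|`. Let `𝓣` be a finite set of subsets of `S` which are Kempe homogeneous: some
proper edge colouring `c` of the Cayley graph of `Γ` is reached from every translate of `c` in a
bounded number of exchanges along cycles of bounded length. Then some `g ∈ S` of infinite order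
lies in no member of `𝓣` and has no Kempe partner.

Idea: the separation index gives Borel sets `U` and `V` which cover `X`, with finite components,
such that a wide belt lies in both. Take the colouring `c` in the frames of `U` and in those of
`V`; in the belt the two colourings are translates of each other, and the exchanges are performed
one after the other at growing distance from the border, each exchange on complete cycles. Kempe
blocks: the colouring `c γ x = θ(x)⁻¹ γ` for a permutation action `θ`. The third kind of partners
is the wreath product of `ℤ` and `ℤ / 2`, where a colouring of period `4` is moved to its translate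
in six exchanges.
-/

namespace Pool.Agent.Results.MP_1822da_lc.KempeEquivalence

open Set MeasureTheory
open Pool.Agent.Lib.MP_1822da_lc Pool.Agent.MP1822K

universe u v

/-- **Main theorem.** Let `(Γ, S)` be a marked group with no element of `S` of odd order and let
`Γ` act freely and by Borel maps on the nonempty standard Borel space `X` with Borel asymptotic
separation index at most `1`. Suppose that the Borel edge chromatic number of the Schreier graph is
not `|S|` (that is, it is `|S| + 1`). Let `J` be a finite set of elements with square `1`, and let
`𝓣` be a finite set of symmetric subsets of `S`, any two of which meet inside `J`, each of them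
Kempe homogeneous over `J` or a Kempe block over `J`. Then some `g ∈ S` of infinite order lies in
no member of `𝓣` and has no Kempe partner `s ∈ S ∩ J`. -/
theorem result {Γ : Type u} [Group Γ] (S : Finset Γ) (hsymm : ∀ g ∈ S, g⁻¹ ∈ S)
    (h1 : (1 : Γ) ∉ S) (hgen : Subgroup.closure (S : Set Γ) = ⊤)
    (hodd : ∀ g ∈ S, ¬ Odd (orderOf g))
    {X : Type v} [Nonempty X] [MeasurableSpace X] [StandardBorelSpace X] [MulAction Γ X]
    (hmeas : ∀ γ : Γ, Measurable fun x : X => γ • x)
    (hfree : ∀ (γ : Γ) (x : X), γ • x = x → γ = 1)
    (hasi : BorelAsiLe (schreierGraph S X) 1)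
    (hchi : borelChromaticIndex (schreierGraph S X) ≠ (S.card : ℕ∞))
    (J : Finset Γ) (hJ : ∀ t ∈ J, t * t = 1)
    (𝓣 : Finset (Finset Γ)) (hT : ∀ T ∈ 𝓣, T ⊆ S ∧ KempeSet J T)
    (hm : ∀ T ∈ 𝓣, ∀ T' ∈ 𝓣, T ≠ T' → ∀ t ∈ T, t ∈ T' → t ∈ J) :
    ∃ g ∈ S, ¬ IsOfFinOrder g ∧ (∀ T ∈ 𝓣, g ∉ T) ∧ ∀ s ∈ S, s ∈ J → ¬ KempePartner g s := by
  by_contra hcon
  push Not at hcon
  refine hchi (kempe_index hmeas hfree hsymm h1 hgen hodd hasi J hJ 𝓣 hT hm fun g hg hgo => ?_)
  by_cases hex : ∃ T ∈ 𝓣, g ∈ T
  · exact Or.inl hex
  push Not at hex
  exact Or.inr (hcon g hg hgo hex)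

end Pool.Agent.Results.MP_1822da_lc.KempeEquivalence
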